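import Pool.Agent.J4H15.PD.Upper
import Pool.Agent.J4H15.PD.Example

/-!
# `k`-power domination in claw-free regular graphs: `k_min(r) = ⌊r / 2⌋`

All graphs are finite and simple; the definitions (`nb`, `nbc`, `Reach`, `PowerDominating`, `gammaP`,
`ClawFree`, `Bound`) are in `Pool/Agent/J4H15/PD/Defs.lean`.
-/

set_option autoImplicit false

namespace Pool.Agent.Results.MP_19e396_co.SmallestK

open Pool.Agent.J4H15.PD

/-- 1. If `G` is a claw-free `r`-regular graph of order `n`, connected or not, and `r ≤ 2 k + 1`, then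
`γ_{p,k}(G) ≤ n / (r + 1)`.

2. For every `r ≥ 3`, the smallest positive integer `k` such that every connected claw-free `r`-regular
graph `G` of order `n` satisfies `γ_{p,k}(G) ≤ n / (r + 1)` is `⌊r / 2⌋`. -/
theorem result :
    (∀ (V : Type) [Fintype V] (G : SimpleGraph V) (k r : ℕ), ClawFree G →
      (∀ v, (nb G v).card = r) → r ≤ 2 * k + 1 → (r + 1) * gammaP G k ≤ Fintype.card V) ∧
    (∀ r : ℕ, 3 ≤ r → IsLeast {k | 1 ≤ k ∧ Bound r k} (r / 2)) := by
  refine ⟨fun V _ G k r h1 h2 h3 => gammaP_le h1 h2 h3, fun r hr => ⟨⟨by omega, ?_⟩, ?_⟩⟩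
  · intro V _ G _ hcf hreg
    exact gammaP_le hcf hreg (by omega)
  · rintro k ⟨hk, hB⟩
    by_contra hlt
    exact not_bound hk (by omega) hB

end Pool.Agent.Results.MP_19e396_co.SmallestK
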